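import Pool.Agent.H449Z.ERW.Main

set_option autoImplicit false

open MeasureTheory ProbabilityTheory Filter Topology

namespace Pool.Agent.Results.MP_204ba2_pr.ZeroSpeed

open Pool.Agent.H449Z.ERW in
/-- For every natural number `d` there is an i.i.d., weakly elliptic law of cookie environments on
the integers, with absolutely integrable total drift per site of expectation `δ = d`, for which the
excited random walk (the first walker) has speed zero almost surely. For `d ≥ 3` one has
`1 < δ - 1`, so the conjectured criterion fails for `k = 1`. -/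
theorem result (d : ℕ) : ∃ (Ω : Type) (_ : MeasurableSpace Ω) (μ : Measure Ω)
    (_ : IsProbabilityMeasure μ) (env : Ω → ℤ → ℕ → ℝ) (X : ℕ → Ω → ℤ),
    Measurable env ∧ (∀ n, Measurable (X n)) ∧ (∀ w x n, env w x n ∈ Set.Icc (0:ℝ) 1) ∧
    -- the walk
    IsERW μ env X ∧
    -- (IID)
    iIndepFun (fun (x : ℤ) (w : Ω) => env w x) μ ∧
    (∀ x : ℤ, IdentDistrib (fun w => env w x) (fun w => env w 0) μ μ) ∧
    -- (WEL)
    (∀ x : ℤ, 0 < μ {w | ∀ n, 0 < env w x n} ∧ 0 < μ {w | ∀ n, env w x n < 1}) ∧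
    -- the total drift is absolutely integrable with expectation `d`
    (∫⁻ w, ∑' n, ENNReal.ofReal |2 * env w 0 n - 1| ∂μ < ⊤) ∧
    (∫ w, ∑' n, (2 * env w 0 n - 1) ∂μ = d) ∧
    -- zero speed
    ∀ᵐ w ∂μ, Tendsto (fun n : ℕ => (X n w : ℝ) / n) atTop (𝓝 0) :=
  Pool.Agent.H449Z.ERW.main d

end Pool.Agent.Results.MP_204ba2_pr.ZeroSpeed
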